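import Pool.Agent.Lib_MP_8cd8c6_lc.Coloured

/-!
# Deciding whether the circular chromatic number is below 3 is NP-complete, even with a 3-colouring

The decision problem CIRC<3 is NP-complete, even if the input graph has chromatic number 3 and a
proper 3-colouring of it is part of the input, and even if it is promised that the circular
chromatic number is at most `8 / 3` or equal to `3`.

The graph of the reduction (a 5-cycle for each variable of a NAE-3SAT instance, a 9-cycle with a
centre joined to every third vertex for each clause, prisms between them) is 3-colourable for every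
instance: a 3-colouring may wind three times around the 9-cycle of a clause, which a circular
colouring with `p / q < 3` cannot.
-/

namespace Pool.Agent.Results.MP_8cd8c6_lc.ThreeColoured

open Pool.Agent.Lib_MP_8cd8c6_lc

/-- `CIRC<3` is in `NP`, and for every `L` in `NP` there are polynomial-time computable maps `f`
and `g` such that `f` is a many-one reduction of `L` to `CIRC<3` and for every word `w`, `f w` is the
code of a graph `G` with chromatic number `3`, `g w` is the code of a proper 3-colouring of `G`, and
the circular chromatic number of `G` is at most `8 / 3` if `w` belongs to `L`, and `3` otherwise. -/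
theorem result : circLT3 ∈ N68a2faeb.NP ∧
    ∀ L ∈ N68a2faeb.NP, ∃ f g : List Bool → List Bool,
      N68a2faeb.IsPolyTime f ∧ N68a2faeb.IsPolyTime g ∧ (∀ w, L w = circLT3 (f w)) ∧
      ∀ w, ∃ (n : ℕ) (G : SimpleGraph (Fin n)) (c : Fin n → Fin 3),
        f w = encodeGraph G ∧ g w = encodeColouring c ∧
        (∀ u v, G.Adj u v → c u ≠ c v) ∧ G.chromaticNumber = 3 ∧
        (L w = true → circChromatic G ≤ 8 / 3) ∧ (L w = false → circChromatic G = 3) := by
  refine ⟨circLT3_mem_NP, fun L hL => ?_⟩
  obtain ⟨f, g, hf, hg, h⟩ := hard_coloured L hL
  refine ⟨f, g, hf, hg, fun w => ?_, h⟩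
  obtain ⟨n, G, c, hfw, -, -, -, h1, h2⟩ := h w
  rw [hfw, Bool.eq_iff_iff, circLT3_encode]
  constructor
  · intro hw
    exact lt_of_le_of_lt (h1 hw) (by norm_num)
  · intro hlt
    by_contra hw
    rw [h2 (Bool.eq_false_iff.2 hw)] at hlt
    exact lt_irrefl _ hlt

end Pool.Agent.Results.MP_8cd8c6_lc.ThreeColoured
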